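import Pool.Graph.R_pool_sql_team_seeded_c8625f6e.K4H66.KG.HolGen

set_option autoImplicit false

/-! Smooth functions which are linear near given points. -/

open MeasureTheory Set Filter Topology Metric
open scoped Classical ContDiff

namespace Pool.Agent.H22K

open Pool.Agent.H810R3.Tub Pool.Agent.K4H66.KG

variable {d : ℕ}

/-- Smooth functions, linear near the origin, with compact support. -/
theorem base (d K : ℕ) : ∃ (Θ : Vec d → Vec d → ℝ) (C : ℝ), 0 < C ∧ (∀ w, ContDiff ℝ ∞ (Θ w)) ∧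
    (∀ w y, ‖y‖ ≤ 1 → Θ w y = inner ℝ w y) ∧ (∀ w y, 2 ≤ ‖y‖ → Θ w y = 0) ∧
    ∀ l ≤ K, ∀ w y, ‖iteratedFDeriv ℝ l (Θ w) y‖ ≤ C * ‖w‖ := by
  let χ : ContDiffBump (0 : Vec d) := ⟨1, 2, by norm_num, by norm_num⟩
  have hχ : ContDiff ℝ ∞ (χ : Vec d → ℝ) := χ.contDiff
  let g : Fin d → Vec d → ℝ := fun i y => y i * χ y
  have hg : ∀ i, ContDiff ℝ ∞ (g i) := fun i => by
    have h1 : ContDiff ℝ ∞ (fun y : Vec d => y i) := by
      exact (EuclideanSpace.proj (𝕜 := ℝ) i).contDiff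
    exact h1.mul hχ
  have hgs : ∀ i, HasCompactSupport (g i) := fun i => by
    refine HasCompactSupport.mul_left ?_
    exact χ.hasCompactSupport
  have hb : ∀ (l : ℕ) (i : Fin d), ∃ C : ℝ, ∀ y, ‖iteratedFDeriv ℝ l (g i) y‖ ≤ C := by
    intro l i
    exact ((hg i).continuous_iteratedFDeriv (by exact_mod_cast le_top)).bounded_above_of_compact_support
      ((hgs i).iteratedFDeriv l)
  choose B hB using hb
  refine ⟨fun w y => ∑ i, w i * g i y, 1 + ∑ l ∈ Finset.range (K + 1), ∑ i, |B l i|, ?_, ?_, ?_, ?_, ?_⟩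
  · have : 0 ≤ ∑ l ∈ Finset.range (K + 1), ∑ i, |B l i| :=
      Finset.sum_nonneg fun l _ => Finset.sum_nonneg fun i _ => abs_nonneg _
    linarith
  · intro w
    exact ContDiff.sum fun i _ => contDiff_const.mul (hg i)
  · intro w y hy
    have h1 : χ y = 1 := χ.one_of_mem_closedBall (by
      show y ∈ closedBall (0 : Vec d) 1
      rwa [mem_closedBall, dist_zero_right])
    show ∑ i, w i * (y i * χ y) = _
    rw [h1, PiLp.inner_apply]
    refine Finset.sum_congr rfl fun i _ => ?_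
    simp [mul_comm]
  · intro w y hy
    have h1 : χ y = 0 := χ.zero_of_le_dist (by
      show (2 : ℝ) ≤ dist y 0
      rwa [dist_zero_right])
    show ∑ i, w i * (y i * χ y) = 0
    rw [h1]
    simp
  · intro l hl w y
    have h1 : iteratedFDeriv ℝ l (fun y => ∑ i, w i * g i y) y =
        ∑ i, w i • iteratedFDeriv ℝ l (g i) y := by
      have h2 := iteratedFDeriv_fun_sum_apply (𝕜 := ℝ) (f := fun i y => w i * g i y) (u := Finset.univ)
        (n := l) (x := y) (fun j _ => ((contDiff_const.mul (hg j)).contDiffAt).of_le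
          (by exact_mod_cast le_top))
      rw [h2]
      refine Finset.sum_congr rfl fun i _ => ?_
      have h3 := iteratedFDeriv_const_smul_apply' (𝕜 := ℝ) (i := l) (a := w i) (f := g i) (x := y)
        ((hg i).contDiffAt.of_le (by exact_mod_cast le_top))
      simpa only [smul_eq_mul] using h3
    rw [h1]
    refine (norm_sum_le _ _).trans ?_
    have h4 : ∀ i, |B l i| ≤ ∑ l ∈ Finset.range (K + 1), |B l i| := fun i =>
      Finset.single_le_sum (f := fun l => |B l i|) (fun _ _ => abs_nonneg _)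
        (Finset.mem_range.2 (by omega))
    calc ∑ i, ‖w i • iteratedFDeriv ℝ l (g i) y‖ ≤ ∑ i, ‖w‖ * ∑ l ∈ Finset.range (K + 1), |B l i| := by
          refine Finset.sum_le_sum fun i _ => ?_
          rw [norm_smul]
          apply mul_le_mul (PiLp.norm_apply_le w i) _ (norm_nonneg _) (norm_nonneg _)
          exact ((hB l i y).trans (le_abs_self _)).trans (h4 i)
      _ = ‖w‖ * ∑ l ∈ Finset.range (K + 1), ∑ i, |B l i| := by
          rw [← Finset.mul_sum, Finset.sum_comm]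
      _ ≤ _ := by nlinarith [norm_nonneg w]

/-- Smooth functions with given gradients near separated points. -/
theorem bumps (d k : ℕ) : ∃ C : ℝ, 0 < C ∧ ∀ (s b : ℝ), 0 < s → s ≤ 1 → ∀ (Z : Finset (Vec d)),
    (∀ z ∈ Z, ∀ z' ∈ Z, z ≠ z' → 8 * s ≤ ‖z - z'‖) → ∀ w : Vec d → Vec d, (∀ z ∈ Z, ‖w z‖ ≤ b) → 0 ≤ b →
    ∃ ψ : Vec d → ℝ, ContDiff ℝ ∞ ψ ∧ (∀ z ∈ Z, ∀ x, ‖x - z‖ < s → ψ =ᶠ[𝓝 x] fun y => inner ℝ (w z) (y - z)) ∧
      (∀ x, (∀ z ∈ Z, 2 * s ≤ ‖x - z‖) → ψ x = 0) ∧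
      ∀ l ≤ k + 1, ∀ x, ‖iteratedFDeriv ℝ l ψ x‖ ≤ C * b * (s⁻¹) ^ k := by
  obtain ⟨Θ, C, hC, hΘ, hlin, hzero, hbd⟩ := base d (k + 1)
  refine ⟨C, hC, ?_⟩
  intro s b hs hs1 Z hZ w hw hb0
  have hs0 : s ≠ 0 := hs.ne'
  set ψ₀ : Vec d → Vec d → ℝ := fun z x => s * Θ (w z) (s⁻¹ • (x - z)) with hψ₀
  have hsm : ∀ z, ContDiff ℝ ∞ (ψ₀ z) := by
    intro z
    refine contDiff_const.mul ((hΘ (w z)).comp ?_)
    exact (contDiff_id.sub contDiff_const).const_smul s⁻¹
  have hfar : ∀ z x, 2 * s ≤ ‖x - z‖ → ψ₀ z x = 0 := by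
    intro z x h
    show s * Θ (w z) (s⁻¹ • (x - z)) = 0
    rw [hzero, mul_zero]
    rw [norm_smul, norm_inv, Real.norm_of_nonneg hs.le, inv_mul_eq_div, le_div_iff₀ hs]
    exact h
  have hnear : ∀ z x, ‖x - z‖ ≤ s → ψ₀ z x = inner ℝ (w z) (x - z) := by
    intro z x h
    show s * Θ (w z) (s⁻¹ • (x - z)) = _
    rw [hlin, inner_smul_right, ← mul_assoc, mul_inv_cancel₀ hs0, one_mul]
    rw [norm_smul, norm_inv, Real.norm_of_nonneg hs.le, inv_mul_eq_div, div_le_one hs]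
    exact h
  have hder : ∀ z ∈ Z, ∀ l ≤ k + 1, ∀ x, ‖iteratedFDeriv ℝ l (ψ₀ z) x‖ ≤ C * b * (s⁻¹) ^ k := by
    intro z hz l hl x
    have h1 : iteratedFDeriv ℝ l (ψ₀ z) x = s • (s⁻¹ ^ l • iteratedFDeriv ℝ l (Θ (w z)) (s⁻¹ • (x - z))) := by
      have h2 := iteratedFDeriv_comp_const_smul (𝕜 := ℝ) (i := l) (s⁻¹) (f := Θ (w z))
        ((hΘ (w z)).of_le (by exact_mod_cast le_top))
      have h3 := iteratedFDeriv_comp_sub' (𝕜 := ℝ) (f := fun y => Θ (w z) (s⁻¹ • y)) l z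
      have h4 : ContDiffAt ℝ l (fun y => Θ (w z) (s⁻¹ • (y - z))) x := by
        have h5 : ContDiff ℝ ∞ (fun y => Θ (w z) (s⁻¹ • (y - z))) := by
          refine (hΘ (w z)).comp ?_
          exact (contDiff_id.sub contDiff_const).const_smul s⁻¹
        exact h5.contDiffAt.of_le (by exact_mod_cast le_top)
      have h6 := iteratedFDeriv_const_smul_apply' (𝕜 := ℝ) (i := l) (a := s)
        (f := fun y => Θ (w z) (s⁻¹ • (y - z))) (x := x) h4
      have h7 : iteratedFDeriv ℝ l (ψ₀ z) x = s • iteratedFDeriv ℝ l (fun y => Θ (w z) (s⁻¹ • (y - z))) x := by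
        simpa only [smul_eq_mul] using h6
      rw [h7, h3, h2]
    rw [h1, norm_smul, norm_smul, norm_pow, norm_inv, Real.norm_of_nonneg hs.le]
    have hs' : 1 ≤ s⁻¹ := (one_le_inv₀ hs).2 hs1
    have h8 : s * s⁻¹ ^ l ≤ s⁻¹ ^ k := by
      rcases Nat.eq_zero_or_pos l with h0 | h0
      · rw [h0, pow_zero, mul_one]
        exact hs1.trans (one_le_pow₀ hs')
      · obtain ⟨j, rfl⟩ : ∃ j, l = j + 1 := ⟨l - 1, by omega⟩
        rw [pow_succ, mul_comm, mul_assoc, inv_mul_cancel₀ hs0, mul_one]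
        exact pow_le_pow_right₀ hs' (by omega)
    have h9 := (hbd l hl (w z) (s⁻¹ • (x - z))).trans
      (mul_le_mul_of_nonneg_left (hw z hz) hC.le)
    calc s * (s⁻¹ ^ l * ‖iteratedFDeriv ℝ l (Θ (w z)) (s⁻¹ • (x - z))‖) ≤ s * (s⁻¹ ^ l * (C * b)) := by gcongr
      _ = (s * s⁻¹ ^ l) * (C * b) := by ring
      _ ≤ s⁻¹ ^ k * (C * b) := by gcongr
      _ = C * b * (s⁻¹) ^ k := by ring
  have hts : ∀ z, tsupport (ψ₀ z) ⊆ closedBall z (2 * s) := by
    intro z
    apply closure_minimal _ isClosed_closedBall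
    intro x hx
    by_contra hcon
    rw [mem_closedBall, dist_eq_norm, not_le] at hcon
    exact hx (hfar z x hcon.le)
  refine ⟨fun x => ∑ z ∈ Z, ψ₀ z x, ContDiff.sum fun z _ => hsm z, ?_, ?_, ?_⟩
  · intro z hz x hx
    have hopen : IsOpen (ball z s) := isOpen_ball
    have hmem : x ∈ ball z s := by rwa [mem_ball, dist_eq_norm]
    filter_upwards [hopen.mem_nhds hmem] with y hy
    rw [mem_ball, dist_eq_norm] at hy
    rw [Finset.sum_eq_single_of_mem z hz, hnear z y hy.le]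
    intro z' hz' hne
    apply hfar
    have h1 := hZ z' hz' z hz hne
    have h2 : ‖z' - z‖ ≤ ‖y - z‖ + ‖y - z'‖ := by
      have e : z' - z = (y - z) - (y - z') := by abel
      rw [e]
      exact norm_sub_le _ _
    linarith
  · intro x hx
    exact Finset.sum_eq_zero fun z hz => hfar z x (hx z hz)
  · intro l hl x
    have h1 : iteratedFDeriv ℝ l (fun x => ∑ z ∈ Z, ψ₀ z x) x = ∑ z ∈ Z, iteratedFDeriv ℝ l (ψ₀ z) x :=
      iteratedFDeriv_fun_sum_apply (𝕜 := ℝ) (n := l) (x := x) (fun z _ => (hsm z).contDiffAt.of_le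
        (by exact_mod_cast le_top))
    rw [h1]
    by_cases h : ∃ z ∈ Z, ‖x - z‖ ≤ 2 * s
    · obtain ⟨z, hz, hxz⟩ := h
      rw [Finset.sum_eq_single_of_mem z hz]
      · exact hder z hz l hl x
      · intro z' hz' hne
        by_contra hcon
        have h2 : x ∈ tsupport (ψ₀ z') := support_iteratedFDeriv_subset (𝕜 := ℝ) (f := ψ₀ z') l hcon
        have h3 := hts z' h2
        rw [mem_closedBall, dist_eq_norm] at h3
        have h4 := hZ z' hz' z hz hne
        have h5 : ‖z' - z‖ ≤ ‖x - z‖ + ‖x - z'‖ := by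
          have e : z' - z = (x - z) - (x - z') := by abel
          rw [e]
          exact norm_sub_le _ _
        linarith
    · push Not at h
      rw [Finset.sum_eq_zero, norm_zero]
      · positivity
      · intro z hz
        by_contra hcon
        have h2 : x ∈ tsupport (ψ₀ z) := support_iteratedFDeriv_subset (𝕜 := ℝ) (f := ψ₀ z) l hcon
        have h3 := hts z h2
        rw [mem_closedBall, dist_eq_norm] at h3
        have h4 := h z hz
        linarith

end Pool.Agent.H22K
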