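import Pool.Graph.R_pool_sql_team_seeded_c8625f6e.K4H66.KG.HolGen

set_option autoImplicit false

/-! Slanted tubes inside boxes, the short time window. -/

open MeasureTheory Set Filter Topology ENNReal NNReal Metric
open scoped Classical

namespace Pool.Agent.H22K

open Pool.Agent.H810R3.Tub Pool.Agent.K4H66.KG

variable {d : ℕ}

/-- A point near the axis of a box, of moderate height, is in the box. -/
theorem mem_box {M : ℝ} (hM : 1 ≤ M) {ω v : Vec d} (hω : ‖ω‖ ≤ 1) {f : Fin d → Space d}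
    (hf : Orthonormal ℝ (Fin.cons (nor ω) f : Fin (d + 1) → Space d)) {y : Space d}
    (h1 : |y.snd| ≤ M ^ 2 / 8) (h2 : ‖y.fst - v + (2 * y.snd) • ω‖ ≤ M / 8) :
    y ∈ box M (nor ω) f (WithLp.toLp 2 (v, (0 : ℝ))) := by
  set δ : Vec d := y.fst - v + (2 * y.snd) • ω with hδ
  set u : Space d := WithLp.toLp 2 (-(2 : ℝ) • ω, (1 : ℝ)) with hu
  set z : Space d := WithLp.toLp 2 (δ, (0 : ℝ)) with hz
  have e : y - WithLp.toLp 2 (v, (0 : ℝ)) = y.snd • u + z := by
    apply WithLp.ofLp_injective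
    refine Prod.ext ?_ ?_
    · show y.fst - v = y.snd • (-(2 : ℝ) • ω) + δ
      rw [hδ]
      module
    · show y.snd - 0 = y.snd * 1 + 0
      ring
  have hzn : ‖z‖ ≤ M / 8 := by
    have h3 : ‖z‖ ^ 2 = ‖δ‖ ^ 2 := by
      rw [norm_space_sq]
      show ‖δ‖ ^ 2 + (0 : ℝ) ^ 2 = _
      ring
    have h4 : ‖z‖ = ‖δ‖ := (sq_eq_sq₀ (norm_nonneg _) (norm_nonneg _)).1 h3
    rw [h4]
    exact h2
  set ρ : ℝ := √(1 + ‖-(2 : ℝ) • ω‖ ^ 2) with hρ
  have hρ0 : 0 < ρ := by
    rw [hρ]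
    positivity
  have hnor : nor ω = ρ⁻¹ • u := rfl
  have hu2 : u = ρ • nor ω := by
    rw [hnor, smul_smul, mul_inv_cancel₀ hρ0.ne', one_smul]
  have hρ5 : ρ ≤ 9 / 4 := by
    rw [hρ, Real.sqrt_le_left (by norm_num)]
    rw [norm_smul, norm_neg, Real.norm_of_nonneg (by norm_num : (0 : ℝ) ≤ 2)]
    nlinarith [norm_nonneg ω]
  have hn1 : ‖nor ω‖ = 1 := norm_dir _
  constructor
  · rw [e, inner_add_right, inner_smul_right, hu2, inner_smul_right, real_inner_self_eq_norm_sq, hn1]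
    have h3 : |(inner ℝ (nor ω) z : ℝ)| ≤ M / 8 := by
      refine (abs_real_inner_le_norm _ _).trans ?_
      rw [hn1, one_mul]
      exact hzn
    have h4 : |y.snd * (ρ * 1 ^ 2)| ≤ (M ^ 2 / 8) * (9 / 4) := by
      rw [one_pow, mul_one, abs_mul, abs_of_pos hρ0]
      gcongr
    refine (abs_add_le _ _).trans ?_
    nlinarith
  · intro j
    have hj : ‖f j‖ = 1 := by
      have := hf.1 j.succ
      simpa using this
    have ho : inner ℝ (f j) (nor ω) = (0 : ℝ) := by
      have := hf.2 (i := j.succ) (j := 0) (Fin.succ_ne_zero j)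
      simpa using this
    rw [e, inner_add_right, inner_smul_right, hu2, inner_smul_right, ho, mul_zero, mul_zero, zero_add]
    refine (abs_real_inner_le_norm _ _).trans ?_
    rw [hj, one_mul]
    linarith

/-- the map to the window -/
noncomputable def W (r : ℝ) (c : Vec d) (h₀ : ℝ) (y : Space d) : Space d :=
  WithLp.toLp 2 (r • y.fst - (2 * (r * y.snd)) • c, r * y.snd + h₀)

@[simp] theorem W_fst (r : ℝ) (c : Vec d) (h₀ : ℝ) (y : Space d) :
    (W r c h₀ y).fst = r • y.fst - (2 * (r * y.snd)) • c := rfl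

@[simp] theorem W_snd (r : ℝ) (c : Vec d) (h₀ : ℝ) (y : Space d) :
    (W r c h₀ y).snd = r * y.snd + h₀ := rfl

theorem lint_W {r : ℝ} (hr : 0 < r) (c : Vec d) (h₀ : ℝ) {g : Space d → ℝ≥0∞} (hg : Measurable g) :
    ENNReal.ofReal (r ^ (d + 1)) * ∫⁻ y, g (W r c h₀ y) = ∫⁻ y, g y := by
  have h1 : ∀ y : Space d, W r c h₀ y = G c (r • y) + WithLp.toLp 2 ((0 : Vec d), h₀) := by
    intro y
    apply WithLp.ofLp_injective
    refine Prod.ext ?_ ?_
    · show r • y.fst - (2 * (r * y.snd)) • c = (r • y.fst - (2 * (r * y.snd)) • c) + 0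
      rw [add_zero]
    · rfl
  set g1 : Space d → ℝ≥0∞ := fun y => g (y + WithLp.toLp 2 ((0 : Vec d), h₀)) with hg1
  have hg1m : Measurable g1 := hg.comp (measurable_id.add_const _)
  have h2 : ∫⁻ y, g (W r c h₀ y) = ∫⁻ y, g1 (G c (r • y)) := by
    refine lintegral_congr fun y => ?_
    rw [h1]
  have h3 := lint_smul (volume : Measure (Space d)) hr.ne' (fun y => g1 (G c y))
  rw [h2, h3, lint_G c hg1m, finrank_space]
  have h4 : ∫⁻ y, g1 y = ∫⁻ y, g y :=
    lintegral_add_right_eq_self g (WithLp.toLp 2 ((0 : Vec d), h₀) : Space d)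
  rw [h4, ← mul_assoc, ← ENNReal.ofReal_mul (by positivity), abs_of_pos (by positivity),
    mul_inv_cancel₀ (by positivity), ENNReal.ofReal_one, one_mul]

/-- The window: the image of a slanted tube of the scale `N` is in the box of the scale `M` with a direction
close to the direction of the tube, and with the corresponding axis. -/
theorem window {c₁ A N M r σ lam : ℝ} (hc₁ : 1 ≤ c₁) (hA : 0 ≤ A) (hN : 1 ≤ N) (hMN : 2 * N ≤ M)
    (hσ1 : σ ≤ 1) (hr : r = M / (8 * (2 * (A + c₁)) * N)) (hlam : |lam| ≤ 1 / 16)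
    {c ω₀ ω : Vec d} {a : Space d} (ha : |a.snd| ≤ A * N ^ 2)
    (hω : ‖ω‖ ≤ 1) (hωω : ‖ω - (c + ω₀)‖ ≤ σ / (4 * N)) {f : Fin d → Space d}
    (hf : Orthonormal ℝ (Fin.cons (nor ω) f : Fin (d + 1) → Space d)) {y : Space d}
    (hy : y ∈ sl c₁ N ω₀ a) {v : Vec d}
    (hv : v = r • (a.fst + (2 * a.snd) • ω₀) + (2 * (lam * M ^ 2)) • ω) :
    W r c (lam * M ^ 2) y ∈ box M (nor ω) f (WithLp.toLp 2 (v, (0 : ℝ))) := by
  obtain ⟨h1, h2⟩ := hy
  have hN0 : 0 < N := by linarith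
  have hM0 : 0 < M := by linarith
  have hr0 : 0 < r := by
    rw [hr]
    positivity
  have hh : |y.snd| ≤ (A + c₁) * N ^ 2 := by
    have e : y.snd = a.snd + (y.snd - a.snd) := by ring
    rw [e, add_mul]
    exact (abs_add_le _ _).trans (add_le_add ha h1)
  apply mem_box (by linarith) hω hf
  · rw [W_snd]
    refine (abs_add_le _ _).trans ?_
    rw [abs_mul, abs_of_pos hr0, abs_mul, abs_of_pos (by positivity : 0 < M ^ 2)]
    have h3 : r * |y.snd| ≤ M ^ 2 / 32 := by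
      calc r * |y.snd| ≤ r * ((A + c₁) * N ^ 2) := by gcongr
        _ = M * N / 16 := by
            rw [hr]
            field_simp
            norm_num
        _ ≤ M ^ 2 / 32 := by nlinarith
    have h4 : |lam| * M ^ 2 ≤ 1 / 16 * M ^ 2 := by gcongr
    nlinarith [sq_nonneg M]
  · rw [W_fst, W_snd, hv]
    have e : r • y.fst - (2 * (r * y.snd)) • c - (r • (a.fst + (2 * a.snd) • ω₀) + (2 * (lam * M ^ 2)) • ω) +
        (2 * (r * y.snd + lam * M ^ 2)) • ω =
        r • ((y.fst - a.fst + (2 * (y.snd - a.snd)) • ω₀) + (2 * y.snd) • (ω - (c + ω₀))) := by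
      module
    rw [e, norm_smul, Real.norm_of_nonneg hr0.le]
    have h3 : ‖(y.fst - a.fst + (2 * (y.snd - a.snd)) • ω₀) + (2 * y.snd) • (ω - (c + ω₀))‖ ≤
        2 * (A + c₁) * N := by
      refine (norm_add_le _ _).trans ?_
      rw [norm_smul, Real.norm_eq_abs, abs_mul, abs_of_pos (by norm_num : (0 : ℝ) < 2)]
      calc ‖y.fst - a.fst + (2 * (y.snd - a.snd)) • ω₀‖ + 2 * |y.snd| * ‖ω - (c + ω₀)‖
          ≤ c₁ * N + 2 * ((A + c₁) * N ^ 2) * (σ / (4 * N)) := by gcongr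
        _ = c₁ * N + (A + c₁) * N * σ / 2 := by
            field_simp
            ring
        _ ≤ c₁ * N + (A + c₁) * N * 1 / 2 := by gcongr
        _ ≤ 2 * (A + c₁) * N := by nlinarith [mul_nonneg hA hN0.le, mul_pos (lt_of_lt_of_le one_pos hc₁) hN0]
    calc r * ‖_‖ ≤ r * (2 * (A + c₁) * N) := by gcongr
      _ = M / 8 := by
          rw [hr]
          field_simp

end Pool.Agent.H22K
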