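import Pool.Agent.H22K.Local

set_option autoImplicit false

/-! Countably many small smooth functions, supported in disjoint balls which shrink to the origin. -/

open MeasureTheory Set Filter Topology ENNReal NNReal Metric
open scoped Classical

namespace Pool.Agent.H22K

open Pool.Agent.H810R3.Tub Pool.Agent.K4H66.KG

variable {d : ℕ}

theorem glue (hd : 1 ≤ d) (k : ℕ) {η : ℝ} (hη : 0 < η) :
    ∃ (c : ℕ → Vec d) (R h : ℕ → ℝ), (∀ n, ‖c n‖ ≤ 1 / 8 ∧ 0 < R n ∧ R n ≤ 1 / 16 ∧ 0 < h n) ∧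
      ∀ ψ : ℕ → Vec d → ℝ, (∀ n, ContDiff ℝ ((⊤ : ℕ∞) : WithTop ℕ∞) (ψ n)) →
        (∀ n x, R n ≤ ‖x - c n‖ → ψ n x = 0) →
        (∀ n, ∀ l ≤ k + 1, ∀ x, ‖iteratedFDeriv ℝ l (ψ n) x‖ ≤ h n) →
        ∃ φ : Vec d → ℝ, ContDiff ℝ ((k + 1 : ℕ) : WithTop ℕ∞) φ ∧
          (∀ x, x ≠ 0 → ContDiffAt ℝ ((⊤ : ℕ∞) : WithTop ℕ∞) φ x) ∧
          (∀ x, 1 / 4 ≤ ‖x‖ → φ x = 0) ∧ (∀ l ≤ k + 1, ∀ x, ‖iteratedFDeriv ℝ l φ x‖ ≤ η) ∧
          ∀ n x, ‖x - c n‖ < R n → φ x = ψ n x := by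
  set e : Vec d := EuclideanSpace.single (⟨0, hd⟩ : Fin d) (1 : ℝ) with he
  have he1 : ‖e‖ = 1 := by
    rw [he, PiLp.norm_single, norm_one]
  set c : ℕ → Vec d := fun n => ((1 / 8 : ℝ) * (1 / 4) ^ n) • e with hc
  set R : ℕ → ℝ := fun n => (1 / 32 : ℝ) * (1 / 4) ^ n with hR
  set h : ℕ → ℝ := fun n => η / 2 * (1 / 2) ^ n with hh
  have hcn : ∀ n, ‖c n‖ = (1 / 8 : ℝ) * (1 / 4) ^ n := by
    intro n
    rw [hc]
    simp only
    rw [norm_smul, he1, mul_one, Real.norm_of_nonneg (by positivity)]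
  have hp : ∀ n : ℕ, (1 / 4 : ℝ) ^ n ≤ 1 := fun n => pow_le_one₀ (by norm_num) (by norm_num)
  have hp0 : ∀ n : ℕ, (0 : ℝ) < (1 / 4 : ℝ) ^ n := fun n => by positivity
  have hlow : ∀ n x, ‖x - c n‖ < R n → (3 / 32 : ℝ) * (1 / 4) ^ n < ‖x‖ := by
    intro n x hx
    have h1 : ‖c n‖ ≤ ‖x‖ + ‖x - c n‖ := by
      have e2 : c n = x - (x - c n) := by abel
      conv_lhs => rw [e2]
      exact norm_sub_le _ _
    rw [hcn] at h1
    have h2 : ‖x - c n‖ < (1 / 32 : ℝ) * (1 / 4) ^ n := hx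
    linarith
  have hup : ∀ n x, ‖x - c n‖ < R n → ‖x‖ < (5 / 32 : ℝ) * (1 / 4) ^ n := by
    intro n x hx
    have h1 : ‖x‖ ≤ ‖x - c n‖ + ‖c n‖ := by
      have e2 : x = (x - c n) + c n := by abel
      conv_lhs => rw [e2]
      exact norm_add_le _ _
    rw [hcn] at h1
    have h2 : ‖x - c n‖ < (1 / 32 : ℝ) * (1 / 4) ^ n := hx
    linarith
  have hdis' : ∀ n m x, n < m → ‖x - c n‖ < R n → ¬ ‖x - c m‖ < R m := by
    intro n m x hnm h1 h2
    have h3 := hlow n x h1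
    have h4 := hup m x h2
    have h5 : (1 / 4 : ℝ) ^ m ≤ (1 / 4) ^ (n + 1) := pow_le_pow_of_le_one (by norm_num) (by norm_num) hnm
    rw [pow_succ] at h5
    have h6 := hp0 n
    linarith
  have hdis : ∀ n m x, ‖x - c n‖ < R n → ‖x - c m‖ < R m → n = m := by
    intro n m x h1 h2
    rcases lt_trichotomy n m with h3 | h3 | h3
    · exact absurd h2 (hdis' n m x h3 h1)
    · exact h3
    · exact absurd h1 (hdis' m n x h3 h2)
  refine ⟨c, R, h, ?_, ?_⟩
  · intro n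
    refine ⟨?_, ?_, ?_, ?_⟩
    · rw [hcn]
      have := hp n
      linarith
    · show 0 < (1 / 32 : ℝ) * (1 / 4) ^ n
      positivity
    · show (1 / 32 : ℝ) * (1 / 4) ^ n ≤ 1 / 16
      have := hp n
      linarith
    · show 0 < η / 2 * (1 / 2) ^ n
      positivity
  intro ψ hψ hsupp hder
  have hsum : Summable h := by
    rw [hh]
    exact (summable_geometric_of_lt_one (by norm_num) (by norm_num)).mul_left _
  have htsum : ∑' n, h n = η := by
    have h1 := (hasSum_geometric_two.mul_left (η / 2)).tsum_eq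
    have h2 : η / 2 * 2 = η := by ring
    rw [h2] at h1
    exact h1
  have hone : ∀ n x, ‖x - c n‖ < R n → ∑' m, ψ m x = ψ n x := by
    intro n x hx
    apply tsum_eq_single
    intro m hm
    apply hsupp
    by_contra hcon
    rw [not_le] at hcon
    exact hm (hdis m n x hcon hx)
  have hN : ∀ n, ContDiff ℝ (((k + 1 : ℕ) : ℕ∞) : WithTop ℕ∞) (ψ n) := fun n =>
    (hψ n).of_le (by exact_mod_cast le_top)
  have hv : ∀ l : ℕ, (l : ℕ∞) ≤ ((k + 1 : ℕ) : ℕ∞) → Summable ((fun _ => h) l) := fun l _ => hsum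
  have hb : ∀ (l : ℕ) (n : ℕ) (x : Vec d), (l : ℕ∞) ≤ ((k + 1 : ℕ) : ℕ∞) →
      ‖iteratedFDeriv ℝ l (ψ n) x‖ ≤ (fun _ => h) l n := by
    intro l n x hl
    exact hder n l (by exact_mod_cast hl) x
  refine ⟨fun x => ∑' n, ψ n x, ?_, ?_, ?_, ?_, ?_⟩
  · exact contDiff_tsum (v := fun _ => h) hN hv hb
  · intro x hx
    have hx0 : 0 < ‖x‖ := norm_pos_iff.2 hx
    obtain ⟨n₀, hn₀⟩ := exists_pow_lt_of_lt_one (y := (1 / 4 : ℝ)) hx0 (by norm_num)
    have h1 : (fun y => ∑' n, ψ n y) =ᶠ[𝓝 x] fun y => ∑ n ∈ Finset.range n₀, ψ n y := by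
      have h2 : ball x (‖x‖ / 2) ∈ 𝓝 x := ball_mem_nhds x (by positivity)
      filter_upwards [h2] with y hy
      rw [mem_ball, dist_eq_norm] at hy
      apply tsum_eq_sum
      intro n hn
      rw [Finset.mem_range, not_lt] at hn
      apply hsupp
      by_contra hcon
      rw [not_le] at hcon
      have h3 := hup n y hcon
      have h4 : (1 / 4 : ℝ) ^ n ≤ (1 / 4) ^ n₀ := pow_le_pow_of_le_one (by norm_num) (by norm_num) hn
      have h5 : ‖x‖ ≤ ‖y‖ + ‖y - x‖ := by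
        have e2 : x = y - (y - x) := by abel
        conv_lhs => rw [e2]
        exact norm_sub_le _ _
      linarith
    refine ContDiffAt.congr_of_eventuallyEq ?_ h1
    exact ContDiffAt.sum fun n _ => (hψ n).contDiffAt
  · intro x hx
    show ∑' n, ψ n x = 0
    have h1 : ∀ n, ψ n x = 0 := by
      intro n
      apply hsupp
      by_contra hcon
      rw [not_le] at hcon
      have h3 := hup n x hcon
      have := hp n
      linarith
    simp [h1]
  · intro l hl x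
    have h1 := iteratedFDeriv_tsum_apply (𝕜 := ℝ) (N := ((k + 1 : ℕ) : ℕ∞)) (v := fun _ => h) hN hv hb
      (k := l) (by exact_mod_cast hl) x
    rw [h1, ← htsum]
    have hs : Summable fun n => ‖iteratedFDeriv ℝ l (ψ n) x‖ :=
      Summable.of_nonneg_of_le (fun n => norm_nonneg _) (fun n => hder n l hl x) hsum
    exact (norm_tsum_le_tsum_norm hs).trans (hs.tsum_le_tsum (fun n => hder n l hl x) hsum)
  · intro n x hx
    exact hone n x hx

end Pool.Agent.H22K
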