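import Pool.Agent.H22K.Geo

set_option autoImplicit false

/-! The hosting family. -/

open MeasureTheory Set Filter Topology ENNReal NNReal Metric
open scoped Classical

namespace Pool.Agent.H22K

open Pool.Agent.H810R3.Tub Pool.Agent.K4H66.KG

variable {d : ℕ}

/-- The centres `(N ^ 2 grad φ (ω i), 0)`. -/
noncomputable def ctr (φ : Vec d → ℝ) (N : ℝ) {ι : Type} (ω : ι → Vec d) (i : ι) : Space d :=
  WithLp.toLp 2 (N ^ 2 • gradient φ (ω i), (0 : ℝ))

/-- The hosting family: the caps of the scale `M` around the caps of a family of the scale `N`. -/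
theorem host (hd : 1 ≤ d) {c₁ A N M r σ lam q θ : ℝ} (hc₁ : 1 ≤ c₁) (hA : 0 ≤ A) (hN : 1 ≤ N)
    (hθ : 0 < θ) (hθ1 : θ ≤ 1) (hMN : 2 * N ≤ θ * M) (hσ : 0 < σ) (hσ1 : σ ≤ 1) (hr : r = M / (8 * (2 * (A + c₁)) * N))
    (hlam : |lam| ≤ 1 / 16) (hq : 0 ≤ q) {c : Vec d} (P : Finset (Vec d × Space d)) (hsep : Sep (σ / N) P)
    (hP : ∀ p ∈ P, ‖c‖ + ‖p.1‖ ≤ 3 / 16 ∧ |p.2.snd| ≤ A * N ^ 2) (φ : Vec d → ℝ)
    (hφ : ∀ p ∈ P, ∀ ω : Vec d, ‖ω - (c + p.1)‖ ≤ θ * σ / (16 * N) →
      M ^ 2 • gradient φ ω = r • (p.2.fst + (2 * p.2.snd) • p.1) + (2 * (lam * M ^ 2)) • ω) :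
    ∃ (ι : Type) (_ : Fintype ι) (_ : Nonempty ι) (ω : ι → Vec d) (f : ι → Fin d → Space d),
      Caps (σ / (8 * d)) 1 M ω f ∧
      ENNReal.ofReal (r ^ (d + 1) * ((θ * M / (4 * N)) ^ d) ^ q) * ∫⁻ y, SF c₁ N P y ^ q ≤
        ∫⁻ y, Fb M ω f (ctr φ M ω) y ^ q := by
  have hd0 : (0 : ℝ) < d := by exact_mod_cast hd
  have hd1 : (1 : ℝ) ≤ d := by exact_mod_cast hd
  have hN0 : 0 < N := by linarith
  have hM0 : 0 < M := by
    by_contra hcon
    nlinarith
  have hMN' : 2 * N ≤ M := by nlinarith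
  have hM1 : 1 ≤ M := by linarith
  have hr0 : 0 < r := by
    rw [hr]
    positivity
  -- the small grid
  set L : ℕ := ⌊θ * M / (2 * N)⌋₊ with hL
  have hx1 : 1 ≤ θ * M / (2 * N) := by
    rw [le_div_iff₀ (by positivity)]
    linarith
  have hL1 : (L : ℝ) ≤ θ * M / (2 * N) := Nat.floor_le (by positivity)
  have hL2 : θ * M / (4 * N) ≤ L := by
    have h2 : θ * M / (2 * N) < L + 1 := Nat.lt_floor_add_one _
    have h3 : (1 : ℝ) ≤ L := by
      have : 1 ≤ L := Nat.le_floor (by exact_mod_cast hx1)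
      exact_mod_cast this
    have h4 : θ * M / (4 * N) = θ * M / (2 * N) / 2 := by
      field_simp
      norm_num
    rw [h4]
    linarith
  set s : ℝ := σ / (8 * d * M) with hs
  have hs0 : 0 < s := by positivity
  have hsL : s * (d * L) ≤ θ * σ / (16 * N) := by
    calc s * (d * L) ≤ s * (d * (θ * M / (2 * N))) := by gcongr
      _ = θ * σ / (16 * N) := by
          rw [hs]
          field_simp
          norm_num
  have hgs' : ∀ k : Fin d → Fin L, ‖gp s k‖ ≤ θ * σ / (16 * N) := fun k => (gp_norm hs0.le k).trans hsL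
  have hgs : ∀ k : Fin d → Fin L, ‖gp s k‖ ≤ σ / (16 * N) := fun k => (hgs' k).trans (by
    gcongr
    nlinarith)
  have hσN : σ / (16 * N) ≤ 1 / 16 := by
    rw [div_le_div_iff₀ (by positivity) (by norm_num)]
    nlinarith
  -- the big grid
  set L' : ℕ := ⌈M⌉₊ with hL'
  have hML : M ≤ L' := Nat.le_ceil M
  have hL'2 : (L' : ℝ) ≤ 2 * M := by
    have := Nat.ceil_lt_add_one hM0.le
    linarith
  have hL'0 : (0 : ℝ) < L' := lt_of_lt_of_le hM0 hML
  set s' : ℝ := 1 / (4 * d * L') with hs'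
  have hs'0 : 0 < s' := by positivity
  have hs'1 : s' * (d * L') = 1 / 4 := by
    rw [hs']
    field_simp
  have hs'2 : s ≤ s' := by
    rw [hs, hs', div_le_div_iff₀ (by positivity) (by positivity)]
    nlinarith [mul_le_mul hσ1 hL'2 hL'0.le (by norm_num : (0 : ℝ) ≤ 1), mul_pos hd0 hM0]
  set ι : Type := (↥P × (Fin d → Fin L)) ⊕ (Fin d → Fin L') with hι
  set ω : ι → Vec d := Sum.elim (fun p => c + p.1.1.1 + gp s p.2) (fun k => hv d hd + gp s' k) with hω
  set f : ι → Fin d → Space d := fun i => fr (ω i) with hf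
  have hcl : ∀ (p : ↥P) (k : Fin d → Fin L), ‖c + p.1.1 + gp s k‖ ≤ 1 / 4 := by
    intro p k
    have h1 := (hP p.1 p.2).1
    have h2 := hgs k
    refine (norm_add_le _ _).trans ?_
    have h3 := norm_add_le c p.1.1
    linarith
  have hx : ∀ k : Fin d → Fin L', ‖hv d hd + gp s' k‖ ≤ 3 / 4 := by
    intro k
    have h1 := gp_norm hs'0.le k
    rw [hs'1] at h1
    refine (norm_add_le _ _).trans ?_
    rw [hv_norm]
    linarith
  have hωn : ∀ i, ‖ω i‖ ≤ 1 := by
    intro i
    rcases i with p | k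
    · exact (hcl p.1 p.2).trans (by norm_num)
    · exact (hx k).trans (by norm_num)
  have hsM : σ / (8 * d) / M = s := by
    rw [hs]
    field_simp
  have hne : Nonempty ι := by
    have : 0 < L' := by exact_mod_cast hL'0
    exact ⟨Sum.inr fun _ => ⟨0, this⟩⟩
  have hcaps : Caps (σ / (8 * d)) 1 M ω f := by
    refine ⟨hωn, ?_, ?_, fun i => fr_spec _⟩
    · rw [hsM]
      have hs4 : s ≤ 1 / 8 := by
        rw [hs, div_le_div_iff₀ (by positivity) (by norm_num)]
        nlinarith [mul_le_mul hd1 hM1 zero_le_one (by linarith : (0 : ℝ) ≤ d)]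
      have hfar : ∀ (p : ↥P × (Fin d → Fin L)) (k : Fin d → Fin L'),
          s ≤ ‖(c + p.1.1.1 + gp s p.2) - (hv d hd + gp s' k)‖ := by
        intro p k
        have h1 := le_norm_hv hd hs'0.le k
        have h2 := hcl p.1 p.2
        have h3 := norm_sub_norm_le (hv d hd + gp s' k) (c + p.1.1.1 + gp s p.2)
        rw [norm_sub_rev] at h3
        linarith
      intro i j hij
      rcases i with p | k <;> rcases j with p' | k'
      · show s ≤ ‖(c + p.1.1.1 + gp s p.2) - (c + p'.1.1.1 + gp s p'.2)‖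
        by_cases hpp : p.1 = p'.1
        · have h1 : p.2 ≠ p'.2 := fun h => hij (by rw [Prod.ext hpp h])
          rw [hpp, add_sub_add_left_eq_sub]
          exact gp_sep hs0.le h1
        · have h1 : p.1.1 ≠ p'.1.1 := fun h => hpp (Subtype.ext h)
          have h2 := hsep p.1.1 p.1.2 p'.1.1 p'.1.2 h1
          have h3 : ‖p.1.1.1 - p'.1.1.1‖ ≤
              ‖(c + p.1.1.1 + gp s p.2) - (c + p'.1.1.1 + gp s p'.2)‖ + ‖gp s p'.2 - gp s p.2‖ := by
            have e : p.1.1.1 - p'.1.1.1 =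
                ((c + p.1.1.1 + gp s p.2) - (c + p'.1.1.1 + gp s p'.2)) + (gp s p'.2 - gp s p.2) := by
              abel
            conv_lhs => rw [e]
            exact norm_add_le _ _
          have h4 : ‖gp s p'.2 - gp s p.2‖ ≤ σ / (16 * N) + σ / (16 * N) :=
            (norm_sub_le _ _).trans (add_le_add (hgs _) (hgs _))
          have h5 : s ≤ σ / (16 * N) := by
            rw [hs]
            apply div_le_div_of_nonneg_left hσ.le (by positivity)
            nlinarith [mul_le_mul hd1 hMN' (by linarith : (0 : ℝ) ≤ 2 * N) (by linarith : (0 : ℝ) ≤ d)]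
          have h6 : σ / N = 16 * (σ / (16 * N)) := by
            field_simp
          have h7 : 0 < σ / (16 * N) := by positivity
          linarith
      · exact hfar p k'
      · show s ≤ ‖(hv d hd + gp s' k) - (c + p'.1.1.1 + gp s p'.2)‖
        rw [norm_sub_rev]
        exact hfar p' k
      · have h1 : k ≠ k' := fun h => hij (by rw [h])
        show s ≤ ‖(hv d hd + gp s' k) - (hv d hd + gp s' k')‖
        rw [add_sub_add_left_eq_sub]
        exact hs'2.trans (gp_sep hs'0.le h1)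
    · rw [one_mul]
      have h1 : Fintype.card ι = P.card * L ^ d + L' ^ d := by
        show Fintype.card ((↥P × (Fin d → Fin L)) ⊕ (Fin d → Fin L')) = _
        rw [Fintype.card_sum, Fintype.card_prod, Fintype.card_coe, Fintype.card_fun, Fintype.card_fun,
          Fintype.card_fin, Fintype.card_fin, Fintype.card_fin]
      rw [h1]
      push_cast
      have h2 : M ^ d ≤ (L' : ℝ) ^ d := by gcongr
      have h3 : (0 : ℝ) ≤ P.card * (L : ℝ) ^ d := by positivity
      linarith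
  refine ⟨ι, inferInstance, hne, ω, f, hcaps, ?_⟩
  -- the lower bound for the multiplicity
  have hlow : ∀ y, ((L ^ d : ℕ) : ℝ≥0∞) * SF c₁ N P y ≤
      Fb M ω f (ctr φ M ω) (W r c (lam * M ^ 2) y) := by
    intro y
    have h5 : Fb M ω f (ctr φ M ω) (W r c (lam * M ^ 2) y) =
        ∑ p : ↥P × (Fin d → Fin L), (box M (nor (ω (Sum.inl p))) (f (Sum.inl p))
          (ctr φ M ω (Sum.inl p))).indicator (fun _ => (1 : ℝ≥0∞)) (W r c (lam * M ^ 2) y) +
        ∑ k : Fin d → Fin L', (box M (nor (ω (Sum.inr k))) (f (Sum.inr k))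
          (ctr φ M ω (Sum.inr k))).indicator (fun _ => (1 : ℝ≥0∞)) (W r c (lam * M ^ 2) y) :=
      Fintype.sum_sum_type _
    rw [h5]
    refine le_trans ?_ le_self_add
    rw [Fintype.sum_prod_type]
    have h6 : ((L ^ d : ℕ) : ℝ≥0∞) * SF c₁ N P y =
        ∑ p : ↥P, ∑ _k : Fin d → Fin L, (sl c₁ N p.1.1 p.1.2).indicator (fun _ => (1 : ℝ≥0∞)) y := by
      unfold SF
      rw [Finset.mul_sum, ← Finset.sum_coe_sort P]
      refine Finset.sum_congr rfl fun p _ => ?_
      rw [Finset.sum_const, Finset.card_univ, Fintype.card_fun, Fintype.card_fin, Fintype.card_fin,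
        nsmul_eq_mul]
    rw [h6]
    refine Finset.sum_le_sum fun p _ => Finset.sum_le_sum fun k _ => ?_
    by_cases hy : y ∈ sl c₁ N p.1.1 p.1.2
    · rw [indicator_of_mem hy]
      have hdist : ‖(c + p.1.1 + gp s k) - (c + p.1.1)‖ ≤ θ * σ / (16 * N) := by
        rw [add_sub_cancel_left]
        exact hgs' k
      have h7 : W r c (lam * M ^ 2) y ∈ box M (nor (ω (Sum.inl (p, k)))) (f (Sum.inl (p, k)))
          (ctr φ M ω (Sum.inl (p, k))) := by
        refine window (c₁ := c₁) (A := A) (N := N) (M := M) (σ := σ) (lam := lam) hc₁ hA hN hMN' hσ1 hr hlam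
          (ω₀ := p.1.1) (hP p.1 p.2).2 (hωn _) ?_ (fr_spec _) hy ?_
        · refine hdist.trans ?_
          calc θ * σ / (16 * N) ≤ 1 * σ / (4 * N) := by
                gcongr
                norm_num
            _ = σ / (4 * N) := by rw [one_mul]
        · exact hφ p.1 p.2 _ hdist
      rw [indicator_of_mem h7]
    · rw [indicator_of_notMem hy]
      exact zero_le
  -- the integral
  have hmeas : Measurable (fun y => Fb M ω f (ctr φ M ω) y ^ q) := (Fb_measurable _ _ _ _).pow_const _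
  rw [← lint_W hr0 c (lam * M ^ 2) hmeas]
  have h8 : ENNReal.ofReal (r ^ (d + 1) * ((θ * M / (4 * N)) ^ d) ^ q) ≤
      ENNReal.ofReal (r ^ (d + 1)) * ((L ^ d : ℕ) : ℝ≥0∞) ^ q := by
    rw [ENNReal.ofReal_mul (by positivity)]
    apply mul_le_mul' le_rfl
    have h9 : ((L ^ d : ℕ) : ℝ≥0∞) = ENNReal.ofReal ((L : ℝ) ^ d) := by
      rw [← ENNReal.ofReal_natCast]
      congr 1
      push_cast
      rfl
    have hLp : (0 : ℝ) < (L : ℝ) ^ d := by
      have : 0 < (L : ℝ) := lt_of_lt_of_le (by positivity) hL2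
      positivity
    rw [h9, ENNReal.ofReal_rpow_of_pos hLp]
    apply ENNReal.ofReal_le_ofReal
    apply Real.rpow_le_rpow (by positivity) _ hq
    gcongr
  calc ENNReal.ofReal (r ^ (d + 1) * ((θ * M / (4 * N)) ^ d) ^ q) * ∫⁻ y, SF c₁ N P y ^ q
      ≤ (ENNReal.ofReal (r ^ (d + 1)) * ((L ^ d : ℕ) : ℝ≥0∞) ^ q) * ∫⁻ y, SF c₁ N P y ^ q := by gcongr
    _ = ENNReal.ofReal (r ^ (d + 1)) * ∫⁻ y, (((L ^ d : ℕ) : ℝ≥0∞) * SF c₁ N P y) ^ q := by
        rw [mul_assoc]
        congr 1
        rw [← lintegral_const_mul _ ((SF_meas _ _ _).pow_const _)]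
        refine lintegral_congr fun y => ?_
        rw [ENNReal.mul_rpow_of_nonneg _ _ hq]
    _ ≤ _ := by
        apply mul_le_mul' le_rfl
        exact lintegral_mono fun y => ENNReal.rpow_le_rpow (hlow y) hq

end Pool.Agent.H22K
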