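import Pool.Agent.H22K.Host
import Pool.Agent.H22K.Fun

set_option autoImplicit false

/-! A failure of the inequality gives small smooth functions, supported in any small ball, along whose
gradients the inequality fails. -/

open MeasureTheory Set Filter Topology ENNReal NNReal Metric
open scoped Classical

namespace Pool.Agent.H22K

open Pool.Agent.H810R3.Tub Pool.Agent.K4H66.KG

variable {d : ℕ}

/-- The inequality with the factor `m N ^ γ` fails along the gradient of `φ`. -/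
def Bad (σ γ m : ℝ) (φ : Vec d → ℝ) : Prop :=
  ∃ N : ℝ, 1 ≤ N ∧ ∃ (ι : Type) (_ : Fintype ι) (ω : ι → Vec d) (f : ι → Fin d → Space d),
    Caps σ 1 N ω f ∧ ¬ Ineq N (m * N ^ γ) ω f (ctr φ N ω)

theorem grad_quad (lam : ℝ) (w z x : Vec d) (φ : Vec d → ℝ)
    (h : φ =ᶠ[𝓝 x] fun y => inner ℝ w (y - z)) :
    gradient (fun y => lam * ‖y‖ ^ 2 + φ y) x = w + (2 * lam) • x := by
  have h1 : (fun y => lam * ‖y‖ ^ 2 + φ y) =ᶠ[𝓝 x] fun y => lam * ‖y‖ ^ 2 + inner ℝ w (y - z) := by
    filter_upwards [h] with y hy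
    rw [hy]
  rw [h1.gradient_eq]
  apply HasGradientAt.gradient
  rw [hasGradientAt_iff_hasFDerivAt]
  have h2 : HasFDerivAt (fun y : Vec d => lam * ‖y‖ ^ 2) (lam • (2 • innerSL ℝ x)) x :=
    (hasStrictFDerivAt_norm_sq x).hasFDerivAt.const_mul lam
  have h3 : HasFDerivAt (fun y : Vec d => (inner ℝ w (y - z) : ℝ)) (innerSL ℝ w) x := by
    have h4 := (innerSL ℝ w).hasFDerivAt (x := x)
    have h5 : (fun y : Vec d => (inner ℝ w (y - z) : ℝ)) = fun y => innerSL ℝ w y - inner ℝ w z := by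
      funext y
      rw [innerSL_apply_apply, inner_sub_right]
    rw [h5]
    exact h4.sub_const _
  refine (h2.add h3).congr_fderiv ?_
  ext y
  simp only [add_apply, smul_apply, innerSL_apply_apply,
    InnerProductSpace.toDual_apply_apply, inner_add_left, inner_smul_left, smul_eq_mul, nsmul_eq_mul]
  simp
  ring

/-- **Local violations.** -/
theorem local_bad (hd : 1 ≤ d) (k : ℕ) {β : ℝ} (hβ : 0 ≤ β) (hneg : ¬ LossAll d β) :
    ∃ ε σ : ℝ, 0 < ε ∧ 0 < σ ∧ ∀ m : ℝ, 0 < m → ∀ (c : Vec d) (R η : ℝ), ‖c‖ ≤ 1 / 8 → 0 < R →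
      R ≤ 1 / 16 → 0 < η → ∃ ψ : Vec d → ℝ, ContDiff ℝ ((⊤ : ℕ∞) : WithTop ℕ∞) ψ ∧ (∀ x, R ≤ ‖x - c‖ → ψ x = 0) ∧
        (∀ l ≤ k + 1, ∀ x, ‖iteratedFDeriv ℝ l ψ x‖ ≤ η) ∧
        ∀ φ : Vec d → ℝ, (∀ x, ‖x - c‖ < R → φ x = ψ x) → ∀ lam : ℝ, |lam| ≤ 1 / 16 →
          Bad σ (β / (k + 1) + ε) m (fun x => lam * ‖x‖ ^ 2 + φ x) := by
  obtain ⟨ε₀, σ, A, hε₀, hσ, hσ1, hA, hbad⟩ := bad hd hβ hneg
  have hd0 : (0 : ℝ) < d := by exact_mod_cast hd
  have hd1 : (1 : ℝ) ≤ d := by exact_mod_cast hd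
  have hk0 : (0 : ℝ) < (k : ℝ) + 1 := by positivity
  refine ⟨ε₀ / (2 * (k + 1)), σ / (8 * d), by positivity, by positivity, ?_⟩
  intro m hm c R η hc hR hR1 hη
  have hσ'1 : σ / (8 * d) ≤ 1 := by
    rw [div_le_one (by positivity)]
    linarith
  obtain ⟨E, hE0, hE⟩ := crit d hd (σ / (8 * d)) (β / (k + 1)) (ε₀ / (k + 1)) (ε₀ / (2 * (k + 1)))
    (by positivity) (by positivity) (by
      apply div_lt_div_of_pos_left hε₀ hk0
      linarith) (by positivity) hσ'1 m hm
  obtain ⟨C, hC0, hC⟩ := bumps d k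
  set q : ℝ := 1 + 1 / (d : ℝ) with hq
  have hq0 : 0 < q := by positivity
  have hdq : (d : ℝ) * q = d + 1 := by
    rw [hq]
    field_simp
  set c₁ : ℝ := 2 * d + 1 with hc₁
  have hc₁1 : 1 ≤ c₁ := by linarith
  set a₁ : ℝ := 8 * (2 * (A + c₁)) with ha₁
  have ha₁0 : 0 < a₁ := by positivity
  set ρ : ℝ := min 1 (R / (4 * A)) with hρ
  have hρ0 : 0 < ρ := lt_min one_pos (by positivity)
  have hρ1 : ρ ≤ 1 := min_le_left _ _
  have hAρ : A * ρ ≤ R / 4 := by
    calc A * ρ ≤ A * (R / (4 * A)) := by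
          gcongr
          exact min_le_right _ _
      _ = R / 4 := by field_simp
  set T : ℝ := max (2 / R) (C * (8 / (R * σ)) ^ k / (16 * η)) with hT
  have hT2 : 2 / R ≤ T := le_max_left _ _
  have hT3 : C * (8 / (R * σ)) ^ k / (16 * η) ≤ T := le_max_right _ _
  have hT0 : 0 < T := lt_of_lt_of_le (by positivity) hT2
  set e : ℝ := (β / (k + 1) + ε₀ / (k + 1)) * q with he
  have hTe : 0 < T ^ e := Real.rpow_pos_of_pos hT0 _
  set b₀ : ℝ := (R / (4 * a₁)) ^ (d + 1) with hb₀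
  have hb₀0 : 0 < b₀ := by positivity
  set Λ : ℝ := (E * T ^ e + 1) / b₀ with hΛ
  obtain ⟨N, hN, P, hsep, hP, hint⟩ := hbad Λ ρ (by positivity) hρ0 hρ1 0
  have hN0 : 0 < N := by linarith
  set M : ℝ := T * N ^ (k + 1) with hM
  have hNk : N ≤ N ^ (k + 1) := by
    calc N = N ^ 1 := (pow_one N).symm
      _ ≤ N ^ (k + 1) := pow_le_pow_right₀ hN (by omega)
  have hM0 : 0 < M := by positivity
  have hMN : 2 * N ≤ R * M := by
    calc 2 * N ≤ 2 * N ^ (k + 1) := by gcongr
      _ = R * (2 / R * N ^ (k + 1)) := by field_simp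
      _ ≤ R * M := by
          rw [hM]
          gcongr
  have hM1 : 1 ≤ M := by nlinarith
  set r : ℝ := M / (a₁ * N) with hr
  have hr0 : 0 < r := by positivity
  have hrr : r = M / (8 * (2 * (A + c₁)) * N) := by rw [hr, ha₁]
  -- the axes
  have hPax : ∀ p ∈ P, ‖p.2.fst + (2 * p.2.snd) • p.1‖ ≤ A * N ^ 2 := by
    intro p hp
    have h1 := (hP p hp).2.1
    rw [smul_zero, sub_zero] at h1
    refine h1.trans ?_
    calc A * ρ * N ^ 2 ≤ A * 1 * N ^ 2 := by gcongr
      _ = A * N ^ 2 := by ring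
  -- the function
  set s : ℝ := R * σ / (8 * N) with hs
  have hs0 : 0 < s := by positivity
  have hs1 : s ≤ 1 := by
    rw [hs, div_le_one (by positivity)]
    nlinarith
  have hsR : 2 * s ≤ R / 4 := by
    rw [hs]
    calc 2 * (R * σ / (8 * N)) = R / 4 * (σ / N) := by
          field_simp
          norm_num
      _ ≤ R / 4 * 1 := by
          gcongr
          rw [div_le_one hN0]
          linarith
      _ = R / 4 := mul_one _
  set Z : Finset (Vec d) := P.image (fun p => c + p.1) with hZ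
  have hinj : ∀ p ∈ P, ∀ p' ∈ P, c + p.1 = c + p'.1 → p = p' := by
    intro p hp p' hp' h
    by_contra hne
    have h1 := hsep p hp p' hp' hne
    rw [add_left_cancel h, sub_self, norm_zero] at h1
    have : 0 < σ / N := by positivity
    linarith
  set ax : Vec d × Space d → Vec d := fun p => p.2.fst + (2 * p.2.snd) • p.1 with hax
  set w : Vec d → Vec d := fun z =>
    if h : ∃ p ∈ P, c + p.1 = z then (r / M ^ 2) • ax h.choose else 0 with hw
  have hwp : ∀ p ∈ P, w (c + p.1) = (r / M ^ 2) • ax p := by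
    intro p hp
    have h : ∃ p' ∈ P, c + p'.1 = c + p.1 := ⟨p, hp, rfl⟩
    rw [hw]
    simp only
    rw [dif_pos h]
    rw [hinj _ h.choose_spec.1 p hp h.choose_spec.2]
  have hwb : ∀ z ∈ Z, ‖w z‖ ≤ N / (16 * M) := by
    intro z hz
    rw [hZ, Finset.mem_image] at hz
    obtain ⟨p, hp, rfl⟩ := hz
    rw [hwp p hp, norm_smul, Real.norm_of_nonneg (by positivity)]
    calc r / M ^ 2 * ‖ax p‖ ≤ r / M ^ 2 * (A * N ^ 2) := by
          gcongr
          exact hPax p hp
      _ = (A / (A + c₁)) * (N / (16 * M)) := by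
          rw [hr, ha₁]
          field_simp
          norm_num
      _ ≤ 1 * (N / (16 * M)) := by
          gcongr
          rw [div_le_one (by positivity)]
          linarith
      _ = N / (16 * M) := one_mul _
  obtain ⟨ψ, hψ1, hψ2, hψ3, hψ4⟩ := hC s (N / (16 * M)) hs0 hs1 Z (by
    intro z hz z' hz' hne
    rw [hZ, Finset.mem_image] at hz hz'
    obtain ⟨p, hp, rfl⟩ := hz
    obtain ⟨p', hp', rfl⟩ := hz'
    have h1 : p ≠ p' := fun h => hne (by rw [h])
    rw [add_sub_add_left_eq_sub]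
    refine le_trans ?_ (hsep p hp p' hp' h1)
    rw [hs]
    calc 8 * (R * σ / (8 * N)) = R * (σ / N) := by field_simp
      _ ≤ 1 * (σ / N) := by
          gcongr
          linarith
      _ = σ / N := one_mul _) w hwb (by positivity)
  have hzR : ∀ p ∈ P, ‖p.1‖ ≤ R / 4 := fun p hp => (hP p hp).1.trans hAρ
  refine ⟨ψ, hψ1, ?_, ?_, ?_⟩
  · intro x hx
    apply hψ3
    intro z hz
    rw [hZ, Finset.mem_image] at hz
    obtain ⟨p, hp, rfl⟩ := hz
    have h1 := hzR p hp
    have h2 : ‖x - c‖ ≤ ‖x - (c + p.1)‖ + ‖p.1‖ := by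
      have e2 : x - c = (x - (c + p.1)) + p.1 := by abel
      conv_lhs => rw [e2]
      exact norm_add_le _ _
    linarith
  · intro l hl x
    refine (hψ4 l hl x).trans ?_
    have h1 : s⁻¹ = 8 / (R * σ) * N := by
      rw [hs]
      field_simp
    rw [h1, mul_pow]
    calc C * (N / (16 * M)) * ((8 / (R * σ)) ^ k * N ^ k)
        = (C * (8 / (R * σ)) ^ k / (16 * η)) * (η * N ^ (k + 1) / M) := by
          rw [pow_succ]
          field_simp
      _ ≤ T * (η * N ^ (k + 1) / M) := by gcongr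
      _ = η := by
          rw [hM]
          field_simp
  · intro φ hφ lam hlam
    have hgr : ∀ p ∈ P, ∀ ω : Vec d, ‖ω - (c + p.1)‖ ≤ R * σ / (16 * N) →
        M ^ 2 • gradient (fun x => lam * ‖x‖ ^ 2 + φ x) ω =
          r • (p.2.fst + (2 * p.2.snd) • p.1) + (2 * (lam * M ^ 2)) • ω := by
      intro p hp ω hω
      have h1 : ‖ω - (c + p.1)‖ < s := by
        refine lt_of_le_of_lt hω ?_
        rw [hs]
        apply div_lt_div_of_pos_left (by positivity) (by positivity)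
        linarith
      have h2 : ‖ω - c‖ < R := by
        have h3 : ‖ω - c‖ ≤ ‖ω - (c + p.1)‖ + ‖p.1‖ := by
          have e2 : ω - c = (ω - (c + p.1)) + p.1 := by abel
          conv_lhs => rw [e2]
          exact norm_add_le _ _
        have h4 := hzR p hp
        linarith
      have h3 : φ =ᶠ[𝓝 ω] fun y => inner ℝ (w (c + p.1)) (y - (c + p.1)) := by
        have h4 : φ =ᶠ[𝓝 ω] ψ := by
          have h5 : ball c R ∈ 𝓝 ω := isOpen_ball.mem_nhds (by rwa [mem_ball, dist_eq_norm])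
          filter_upwards [h5] with y hy
          rw [mem_ball, dist_eq_norm] at hy
          exact hφ y hy
        refine h4.trans (hψ2 (c + p.1) ?_ ω h1)
        rw [hZ]
        exact Finset.mem_image_of_mem _ hp
      rw [grad_quad lam (w (c + p.1)) (c + p.1) ω φ h3, hwp p hp, smul_add, smul_smul, smul_smul]
      congr 2
      · field_simp
      · ring
    obtain ⟨ι, _, hne, ω, f, hcaps, hlow⟩ := host hd (c₁ := c₁) (A := A) (N := N) (M := M) (r := r) (σ := σ)
      (lam := lam) (q := q) (θ := R) hc₁1 hA.le hN hR (by linarith) hMN hσ hσ1 hrr hlam hq0.le (c := c) P hsep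
      (fun p hp => ⟨by
        have h1 := hzR p hp
        linarith, (hP p hp).2.2⟩) (fun x => lam * ‖x‖ ^ 2 + φ x) hgr
    refine ⟨M, hM1, ι, inferInstance, ω, f, hcaps, ?_⟩
    intro hI
    have h1 := hE M hM1 ι ω f (ctr (fun x => lam * ‖x‖ ^ 2 + φ x) M ω) hcaps.1 hcaps.2.1 hcaps.2.2.2 hI
    have h2 := hlow.trans h1
    have h3 : ENNReal.ofReal (r ^ (d + 1) * ((R * M / (4 * N)) ^ d) ^ q) *
        ENNReal.ofReal (Λ * N ^ ((β + ε₀) * q) * N ^ (2 * d + 2)) ≤
        ENNReal.ofReal (E * M ^ e * M ^ (2 * d + 2)) := by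
      refine le_trans ?_ h2
      apply mul_le_mul' le_rfl hint
    have hpos : 0 < R * M / (4 * N) := by positivity
    rw [← ENNReal.ofReal_mul (by positivity), ENNReal.ofReal_le_ofReal_iff (by positivity)] at h3
    have h4 : ((R * M / (4 * N)) ^ d) ^ q = (R * M / (4 * N)) ^ (d + 1) := by
      rw [← Real.rpow_natCast (R * M / (4 * N)) d, ← Real.rpow_mul hpos.le, hdq,
        ← Real.rpow_natCast (R * M / (4 * N)) (d + 1)]
      congr 1
      push_cast
      ring
    have h5 : M ^ e = T ^ e * N ^ ((β + ε₀) * q) := by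
      rw [hM, Real.mul_rpow hT0.le (by positivity), ← Real.rpow_natCast N (k + 1), ← Real.rpow_mul hN0.le]
      congr 2
      rw [he]
      push_cast
      field_simp
    have h6 : r ^ (d + 1) * ((R * M / (4 * N)) ^ d) ^ q * (Λ * N ^ ((β + ε₀) * q) * N ^ (2 * d + 2)) =
        (E * T ^ e + 1) * (N ^ ((β + ε₀) * q) * M ^ (2 * d + 2)) := by
      have e0 : r * (R * M / (4 * N)) = R / (4 * a₁) * (M * M / (N * N)) := by
        rw [hr]
        field_simp
      have e1 : r ^ (d + 1) * (R * M / (4 * N)) ^ (d + 1) = b₀ * (M ^ (2 * d + 2) / N ^ (2 * d + 2)) := by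
        rw [← mul_pow, e0, mul_pow, hb₀, div_pow (M * M), mul_pow M M, mul_pow N N, ← pow_add, ← pow_add]
        congr 3
        all_goals ring
      rw [h4, e1, hΛ]
      field_simp
    rw [h6, h5] at h3
    have h7 : 0 < N ^ ((β + ε₀) * q) * M ^ (2 * d + 2) := by positivity
    nlinarith

end Pool.Agent.H22K
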