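import Pool.Agent.H22K.Glue

set_option autoImplicit false

/-! One function of class `C ^ (k + 1)` along whose gradient all the failures of the inequality occur. -/

open MeasureTheory Set Filter Topology ENNReal NNReal Metric
open scoped Classical

namespace Pool.Agent.H22K

open Pool.Agent.H810R3.Tub Pool.Agent.K4H66.KG

variable {d : ℕ}

/-- The inequality holds for the translates given by the gradient of `φ`, with the factor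
`C N ^ (β + ε)`, for every `ε > 0`. -/
def LossAlong (φ : Vec d → ℝ) (β : ℝ) : Prop :=
  ∀ ε σ κ : ℝ, 0 < ε → 0 < σ → 0 < κ → ∃ C : ℝ, ∀ N : ℝ, 1 ≤ N → ∀ (ι : Type) [Fintype ι]
    (ω : ι → Vec d) (f : ι → Fin d → Space d), Caps σ κ N ω f →
      Ineq N (C * N ^ (β + ε)) ω f (ctr φ N ω)

theorem lossAlong_of_lossAll {β : ℝ} (h : LossAll d β) (φ : Vec d → ℝ) : LossAlong φ β := by
  intro ε σ κ hε hσ hκ
  obtain ⟨C, hC⟩ := h ε σ κ hε hσ hκ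
  exact ⟨C, fun N hN ι _ ω f hc => hC N hN ι ω f _ hc⟩

theorem lossAlong_mono {β β' : ℝ} (hβ : β ≤ β') {φ : Vec d → ℝ} (h : LossAlong φ β) : LossAlong φ β' := by
  intro ε σ κ hε hσ hκ
  obtain ⟨C, hC⟩ := h ε σ κ hε hσ hκ
  exact ⟨|C|, fun N hN ι _ ω f hc => ineq_mono (hC N hN ι ω f hc) (rpow_abs_le hN (by linarith))⟩

theorem lossAll_zero_of_forall (h : ∀ δ : ℝ, 0 < δ → LossAll d δ) : LossAll d 0 := by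
  intro ε σ κ hε hσ hκ
  obtain ⟨C, hC⟩ := h (ε / 2) (by linarith) (ε / 2) σ κ (by linarith) hσ hκ
  refine ⟨C, fun N hN ι _ ω f a hc => ?_⟩
  have h1 := hC N hN ι ω f a hc
  have e : ε / 2 + ε / 2 = 0 + ε := by ring
  rwa [e] at h1

theorem universal (hd : 1 ≤ d) (k : ℕ) {η : ℝ} (hη : 0 < η) :
    ∃ φ : Vec d → ℝ, ContDiff ℝ ((k + 1 : ℕ) : WithTop ℕ∞) φ ∧
      (∀ x, x ≠ 0 → ContDiffAt ℝ ((⊤ : ℕ∞) : WithTop ℕ∞) φ x) ∧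
      (∀ x, 1 / 4 ≤ ‖x‖ → φ x = 0) ∧ (∀ l ≤ k + 1, ∀ x, ‖iteratedFDeriv ℝ l φ x‖ ≤ η) ∧
      ∀ β : ℝ, 0 ≤ β → ∀ lam : ℝ, |lam| ≤ 1 / 16 →
        LossAlong (fun x => lam * ‖x‖ ^ 2 + φ x) (β / (k + 1)) → LossAll d β := by
  obtain ⟨c, R, h, hcRh, hglue⟩ := glue hd k hη
  obtain ⟨g, hg⟩ := exists_surjective_nat (ℚ × ℕ)
  have hk0 : (0 : ℝ) < (k : ℝ) + 1 := by positivity
  have hr : ∀ r : ℚ, ∃ ε σ : ℝ, 0 < ε ∧ 0 < σ ∧ ((0 : ℝ) ≤ r → ¬ LossAll d r →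
      ∀ m : ℝ, 0 < m → ∀ (c : Vec d) (R η : ℝ), ‖c‖ ≤ 1 / 8 → 0 < R →
      R ≤ 1 / 16 → 0 < η → ∃ ψ : Vec d → ℝ, ContDiff ℝ ((⊤ : ℕ∞) : WithTop ℕ∞) ψ ∧
        (∀ x, R ≤ ‖x - c‖ → ψ x = 0) ∧ (∀ l ≤ k + 1, ∀ x, ‖iteratedFDeriv ℝ l ψ x‖ ≤ η) ∧
        ∀ φ : Vec d → ℝ, (∀ x, ‖x - c‖ < R → φ x = ψ x) → ∀ lam : ℝ, |lam| ≤ 1 / 16 →
          Bad σ ((r : ℝ) / (k + 1) + ε) m (fun x => lam * ‖x‖ ^ 2 + φ x)) := by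
    intro r
    by_cases h1 : (0 : ℝ) ≤ r ∧ ¬ LossAll d r
    · obtain ⟨ε, σ, hε, hσ, hb⟩ := local_bad hd k h1.1 h1.2
      exact ⟨ε, σ, hε, hσ, fun _ _ => hb⟩
    · exact ⟨1, 1, one_pos, one_pos, fun h2 h3 => absurd ⟨h2, h3⟩ h1⟩
  choose ε σ hε hσ hloc using hr
  have hex : ∀ n, ∃ ψ : Vec d → ℝ, ContDiff ℝ ((⊤ : ℕ∞) : WithTop ℕ∞) ψ ∧
      (∀ x, R n ≤ ‖x - c n‖ → ψ x = 0) ∧ (∀ l ≤ k + 1, ∀ x, ‖iteratedFDeriv ℝ l ψ x‖ ≤ h n) ∧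
        ((0 : ℝ) ≤ (g n).1 → ¬ LossAll d (g n).1 →
          ∀ φ : Vec d → ℝ, (∀ x, ‖x - c n‖ < R n → φ x = ψ x) → ∀ lam : ℝ, |lam| ≤ 1 / 16 →
            Bad (σ (g n).1) (((g n).1 : ℝ) / (k + 1) + ε (g n).1) ((g n).2 + 1)
              (fun x => lam * ‖x‖ ^ 2 + φ x)) := by
    intro n
    obtain ⟨h1, h2, h3, h4⟩ := hcRh n
    by_cases h5 : (0 : ℝ) ≤ (g n).1 ∧ ¬ LossAll d (g n).1
    · obtain ⟨ψ, p1, p2, p3, p4⟩ := hloc (g n).1 h5.1 h5.2 ((g n).2 + 1) (by positivity) (c n) (R n) (h n)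
        h1 h2 h3 h4
      exact ⟨ψ, p1, p2, p3, fun _ _ => p4⟩
    · refine ⟨fun _ => 0, contDiff_const, fun _ _ => rfl, ?_, fun h6 h7 => absurd ⟨h6, h7⟩ h5⟩
      intro l _ x
      have e : iteratedFDeriv ℝ l (fun _ : Vec d => (0 : ℝ)) = 0 := iteratedFDeriv_fun_zero
      rw [e]
      simpa using h4.le
  choose ψ hψ1 hψ2 hψ3 hψ4 using hex
  obtain ⟨φ, p1, p2, p3, p4, p5⟩ := hglue ψ hψ1 hψ2 hψ3
  refine ⟨φ, p1, p2, p3, p4, ?_⟩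
  intro β hβ lam hlam hL
  by_contra hn
  obtain ⟨r, hr1, hr2, hr3⟩ := exists_rat hβ hn
  obtain ⟨C, hC⟩ := hL (ε r) (σ r) 1 (hε r) (hσ r) one_pos
  obtain ⟨m, hm⟩ := exists_nat_ge |C|
  obtain ⟨n, hgn⟩ := hg (r, m)
  have h1 := hψ4 n
  rw [hgn] at h1
  obtain ⟨N, hN, ι, _, ω, f, hcaps, hbad⟩ := h1 hr2 hr3 φ (p5 n) lam hlam
  apply hbad
  refine ineq_mono (hC N hN ι ω f hcaps) ?_
  refine (rpow_abs_le (t := (r : ℝ) / (k + 1) + ε r) hN ?_).trans ?_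
  · have : β / ((k : ℝ) + 1) ≤ (r : ℝ) / (k + 1) := by gcongr
    linarith
  · apply mul_le_mul_of_nonneg_right _ (Real.rpow_nonneg (by linarith) _)
    show |C| ≤ (m : ℝ) + 1
    linarith

end Pool.Agent.H22K
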