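import Pool.Agent.H22K.Main
import Pool.Graph.R_seed8.Results.MP_ac5134_an.SmoothTranslates

set_option autoImplicit false

/-! The known bound for the translates given by the gradient of a function of class `C ^ (k + 1)`. -/

open MeasureTheory Set Filter Topology ENNReal NNReal Metric
open scoped Classical

namespace Pool.Agent.H22K

open Pool.Agent.H810R3.Tub Pool.Agent.K4H66.KG

variable {d : ℕ}

theorem contDiff_gradient {k : ℕ} {φ : Vec d → ℝ} (hφ : ContDiff ℝ ((k + 1 : ℕ) : WithTop ℕ∞) φ) :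
    ContDiff ℝ (k : WithTop ℕ∞) (gradient φ) := by
  have h1 : ContDiff ℝ (k : WithTop ℕ∞) (fderiv ℝ φ) := hφ.fderiv_right (by norm_cast)
  exact (InnerProductSpace.toDual ℝ (Vec d)).symm.contDiff.comp h1

theorem upper (hd : 1 ≤ d) {k : ℕ} (hk : 1 ≤ k) {φ : Vec d → ℝ}
    (hφ : ContDiff ℝ ((k + 1 : ℕ) : WithTop ℕ∞) φ) : LossAlong φ (4 / k) := by
  have hk0 : (0 : ℝ) < k := by exact_mod_cast hk
  have hb : ContDiff ℝ (k : WithTop ℕ∞) (gradient φ) := contDiff_gradient hφ
  have hbd : ∀ j : ℕ, ∃ A : ℝ≥0, j ≤ k → ∀ v, ‖v‖ ≤ 1 → ‖iteratedFDeriv ℝ j (gradient φ) v‖ ≤ A := by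
    intro j
    by_cases hj : j ≤ k
    · have h1 : Continuous fun v => ‖iteratedFDeriv ℝ j (gradient φ) v‖ :=
        (hb.continuous_iteratedFDeriv (by exact_mod_cast hj)).norm
      obtain ⟨A, hA⟩ := (isCompact_closedBall (0 : Vec d) 1).bddAbove_image h1.continuousOn
      refine ⟨A.toNNReal, fun _ v hv => ?_⟩
      have h2 := hA (Set.mem_image_of_mem _ (by rwa [mem_closedBall, dist_zero_right] : v ∈ closedBall 0 1))
      exact h2.trans (Real.le_coe_toNNReal A)
    · exact ⟨0, fun h => absurd h hj⟩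
  choose A hA using hbd
  intro ε σ κ hε hσ hκ
  have hε' : 0 < 4 / (k : ℝ) + ε := by positivity
  obtain ⟨C, hC0, hC⟩ := Pool.Agent.Results.MP_ac5134_an.SmoothTranslates.result d hd (k - 1)
    (4 / k + ε) (min σ 1) κ hε' (by
      rw [Nat.cast_sub hk, Nat.cast_one, sub_add_cancel, div_le_iff₀ hε']
      have : (k : ℝ) * (4 / k + ε) = 4 + k * ε := by field_simp
      rw [this]
      have : 0 < (k : ℝ) * ε := by positivity
      linarith) (lt_min hσ one_pos) (min_le_right _ _) hκ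
  have hkk : k - 1 + 1 = k := by omega
  rw [hkk] at hC
  refine ⟨C * (1 + (0 : ℝ≥0) + (∑ j ∈ Finset.range (k + 1), A j : ℝ≥0) + (0 : ℝ≥0) : ℝ) ^ d, ?_⟩
  intro N hN ι _ ω f hcaps p hp
  have hN0 : 0 < N := by linarith
  have h1 := hC (∑ j ∈ Finset.range (k + 1), A j) 0 0 (gradient φ) hb (by
      intro j hj v hv
      refine (hA j hj v hv).trans ?_
      exact_mod_cast Finset.single_le_sum (f := A) (fun _ _ => zero_le) (Finset.mem_range.2 (by omega)))
    N hN ι ω (fun i => N ^ 2 • gradient φ (ω i)) (fun _ => 0) f hcaps.1 (by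
      intro i j hij
      refine le_trans ?_ (hcaps.2.1 i j hij)
      gcongr
      exact min_le_left _ _) hcaps.2.2.1 hcaps.2.2.2 (by simp) (by simp) p hp
  simpa only [zero_smul, add_zero, ctr] using h1

end Pool.Agent.H22K
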